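import Pool.Agent.H89.OCK.Sig

/-!
# The staged signal lemma (row 366, R3)

`G a`, `a : Fin c`, are the samples of the signals, `g a` the scalar digits of the sample and `F a`
its perturbation (a vector). The sizes of the signals are `2 ^ (-(K * d a))`. All signals use all
digits up to `2 ^ (-(K * W))`. The coordinate `b` of the sum is known to `2 ^ (-(K * (d b + W)))`.
-/

set_option autoImplicit false

namespace Pool.OCK

open Finset Real
open Pool.Agent.H49.Ent Pool.Agent.H32.Dense Pool.STK Pool.KS6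

variable {Ω S T ζ β : Type} [Fintype Ω] {c : ℕ}

/-- One window, with a centre for the perturbation. -/
theorem step_cen {p : Ω → ℝ} (hp : IsLaw p) (B : Ω → β) (v f : Ω → Fin c → ℝ) (m K : ℕ)
    (hm : ∀ ω ω', 0 < p ω → 0 < p ω' → B ω = B ω' → ∀ i, |(2 : ℝ) ^ m * v ω i - 2 ^ m * v ω' i| ≤ 1)
    (hs : ∀ ω ω', 0 < p ω → 0 < p ω' → B ω = B ω' → ∀ i, v ω i = v ω' i ∨
      |(2 : ℝ) ^ (m + K) * (v ω i + f ω i) - 2 ^ (m + K) * (v ω' i + f ω' i)| ≤ 1)
    (cen : β → Fin c → ℝ) (e : ℝ)
    (he : Ex p (fun ω => ind (¬ ∀ i, |f ω i - cen (B ω) i| ≤ 1 / 2 ^ (m + K))) ≤ e) :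
    CH p (qv (m + K) v) B ≤ Real.log 2 + c * (Real.log 9 + e * ((K + 2) * Real.log 2)) := by
  classical
  set I : Ω → Bool := fun ω => decide (∀ i, |f ω i - cen (B ω) i| ≤ 1 / 2 ^ (m + K)) with hI
  have h1 : CH p (qv (m + K) v) B ≤ CH p I B + CH p (qv (m + K) v) (fun ω => (I ω, B ω)) :=
    CH_le_add hp.nonneg _ I B
  have h2 : CH p I B ≤ Real.log 2 := by
    have h3 := CH_le_card hp.nonneg hp.sum_one I B (fun _ => Finset.univ)
      (fun ω _ => Finset.mem_univ _)
    refine h3.trans ?_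
    rw [Ex_const hp.sum_one]
    simp
  have hpow : (0 : ℝ) < 2 ^ (m + K) := by positivity
  set L : Ω → ℝ := fun ω => if I ω = true then 4 else 2 ^ K + 1 with hL
  have h4 : CH p (qv (m + K) v) (fun ω => (I ω, B ω)) ≤
      c * Ex p (fun ω => Real.log (2 * L ω + 1)) := by
    refine CH_le_vec hp.nonneg hp.sum_one _ _ L ?_
    intro ω ω' hω hω' h i
    simp only [Prod.mk.injEq] at h
    obtain ⟨h5, hBB⟩ := h
    show |((⌊(2 : ℝ) ^ (m + K) * v ω i⌋ - ⌊(2 : ℝ) ^ (m + K) * v ω' i⌋ : ℤ) : ℝ)| ≤ L ω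
    by_cases h9 : I ω = true
    · rw [hL]
      dsimp only
      rw [if_pos h9]
      rcases hs ω ω' hω hω' hBB i with h0 | a4
      · rw [h0, sub_self]
        norm_num
      have h10 : I ω' = true := h5 ▸ h9
      have a1 := of_decide_eq_true h9 i
      have a2 := of_decide_eq_true h10 i
      rw [← hBB] at a2
      have a5 : ∀ x y : ℝ, |x - y| ≤ 1 / 2 ^ (m + K) →
          |(2 : ℝ) ^ (m + K) * x - (2 : ℝ) ^ (m + K) * y| ≤ 1 := by
        intro x y h
        rw [← mul_sub, abs_mul, abs_of_pos hpow]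
        calc (2 : ℝ) ^ (m + K) * |x - y| ≤ 2 ^ (m + K) * (1 / 2 ^ (m + K)) :=
              mul_le_mul_of_nonneg_left h hpow.le
          _ = 1 := by field_simp
      have a6 := a5 _ _ a1
      have a7 := a5 _ _ a2
      have a8 : |(2 : ℝ) ^ (m + K) * v ω i - (2 : ℝ) ^ (m + K) * v ω' i| ≤ 3 := by
        have e1 : (2 : ℝ) ^ (m + K) * v ω i - (2 : ℝ) ^ (m + K) * v ω' i =
            ((2 : ℝ) ^ (m + K) * (v ω i + f ω i) - (2 : ℝ) ^ (m + K) * (v ω' i + f ω' i)) -
            (((2 : ℝ) ^ (m + K) * f ω i - (2 : ℝ) ^ (m + K) * cen (B ω) i) -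
            ((2 : ℝ) ^ (m + K) * f ω' i - (2 : ℝ) ^ (m + K) * cen (B ω) i)) := by
          ring
        rw [e1]
        refine (abs_sub _ _).trans ?_
        have := abs_sub ((2 : ℝ) ^ (m + K) * f ω i - (2 : ℝ) ^ (m + K) * cen (B ω) i)
          ((2 : ℝ) ^ (m + K) * f ω' i - (2 : ℝ) ^ (m + K) * cen (B ω) i)
        linarith
      have := floor_near a8
      linarith
    · rw [hL]
      dsimp only
      rw [if_neg h9]
      have a1 := hm ω ω' hω hω' hBB i
      refine floor_near ?_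
      rw [← mul_sub, abs_mul, abs_of_pos hpow, pow_add]
      rw [← mul_sub, abs_mul, abs_of_pos (by positivity : (0 : ℝ) < 2 ^ m)] at a1
      have hK : (0 : ℝ) ≤ 2 ^ K := by positivity
      nlinarith [mul_le_mul_of_nonneg_left a1 hK]
  have hl2 : 0 ≤ Real.log 2 := Real.log_nonneg (by norm_num)
  have hlogM : Real.log (2 * (2 ^ K + 1) + 1) ≤ (K + 2) * Real.log 2 + Real.log 9 := by
    have e1 : ((K : ℝ) + 2) * Real.log 2 = Real.log (2 ^ (K + 2)) := by
      rw [Real.log_pow]
      push_cast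
      ring
    rw [e1, ← Real.log_mul (by positivity) (by norm_num)]
    refine Real.log_le_log (by positivity) ?_
    have : (1 : ℝ) ≤ 2 ^ K := one_le_pow₀ (by norm_num)
    rw [pow_add]
    nlinarith
  have h5 : Ex p (fun ω => Real.log (2 * L ω + 1)) ≤
      Real.log 9 + e * ((K + 2) * Real.log 2) := by
    have h6 : Ex p (fun ω => Real.log (2 * L ω + 1)) ≤ Ex p (fun ω => Real.log 9 +
        ((K + 2) * Real.log 2) * ind (¬ ∀ i, |f ω i - cen (B ω) i| ≤ 1 / 2 ^ (m + K))) := by
      refine Ex_mono hp.nonneg fun ω _ => ?_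
      rw [hL]
      dsimp only
      by_cases h7 : I ω = true
      · rw [if_pos h7]
        have h8 := of_decide_eq_true h7
        unfold ind
        rw [if_neg (not_not.mpr h8), mul_zero, add_zero]
        norm_num
      · rw [if_neg h7]
        have h8 : ¬ ∀ i, |f ω i - cen (B ω) i| ≤ 1 / 2 ^ (m + K) :=
          fun h => h7 (decide_eq_true h)
        unfold ind
        rw [if_pos h8, mul_one]
        linarith
    rw [Ex_add, Ex_const hp.sum_one, Ex_smul] at h6
    have h9 := mul_le_mul_of_nonneg_left he (by positivity : (0 : ℝ) ≤ (K + 2) * Real.log 2)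
    linarith
  have h10 : (c : ℝ) * Ex p (fun ω => Real.log (2 * L ω + 1)) ≤
      c * (Real.log 9 + e * ((K + 2) * Real.log 2)) :=
    mul_le_mul_of_nonneg_left h5 (Nat.cast_nonneg c)
  linarith

/-- Entropy of a tuple from below. -/
theorem CH_tuple {p : Ω → ℝ} (hp : IsLaw p) (x : Fin c → Ω → ℤ) (C : Ω → β) (h : Fin c → ℝ)
    (hx : ∀ a, h a ≤ CH p (x a) (fun ω => ((fun b => if b = a then 0 else x b ω), C ω))) :
    ∑ a, h a ≤ CH p (fun ω a => x a ω) C := by
  classical
  have key : ∀ s : Finset (Fin c),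
      ∑ a ∈ s, h a ≤ CH p (fun ω a => if a ∈ s then x a ω else 0) C := by
    intro s
    induction s using Finset.induction_on with
    | empty =>
      rw [Finset.sum_empty]
      exact CH_nonneg hp.nonneg _ _
    | insert a s ha ih =>
      rw [Finset.sum_insert ha]
      have h1 := CH_chain hp.nonneg (x a) (fun ω b => if b ∈ s then x b ω else 0) C
      have h2 : CH p (fun ω => (x a ω, fun b => if b ∈ s then x b ω else 0)) C ≤
          CH p (fun ω b => if b ∈ insert a s then x b ω else 0) C := by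
        refine CH_mono_left hp.nonneg fun ω ω' _ _ h => ?_
        simp only [Prod.mk.injEq] at h
        have h3 := congrFun h.1
        refine Prod.ext ?_ (funext fun b => ?_)
        · have := h3 a
          simpa using this
        · have := h3 b
          by_cases hb : b ∈ s
          · simpa [hb] using this
          · simp [hb]
      have h4 : CH p (x a) (fun ω => ((fun b => if b = a then 0 else x b ω), C ω)) ≤
          CH p (x a) (fun ω => ((fun b => if b ∈ s then x b ω else 0), C ω)) := by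
        refine CH_mono_cond hp.nonneg fun ω ω' _ _ h => ?_
        simp only [Prod.mk.injEq] at h
        refine Prod.ext (funext fun b => ?_) h.2
        have h3 := congrFun h.1 b
        by_cases hb : b ∈ s
        · have hba : b ≠ a := fun e => ha (e ▸ hb)
          simpa [hb, hba] using h3
        · simp [hb]
      linarith [hx a]
  have h1 := key Finset.univ
  simpa using h1

/-! ### Centres -/

/-- `f` has a centre which is a function of `B`: `f` is at distance at most `δ` of it, except with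
probability `e`. -/
def Cn (p : Ω → ℝ) (B : Ω → β) (f : Ω → Fin c → ℝ) (δ e : ℝ) : Prop :=
  ∃ cen : β → Fin c → ℝ, Ex p (fun ω => ind (¬ ∀ i, |f ω i - cen (B ω) i| ≤ δ)) ≤ e

/-- A variable which is determined by another one is a function of it. -/
theorem det_fun {p : Ω → ℝ} {B : Ω → β} {y : Ω → S} [Nonempty S] (h : Det p B y) :
    ∃ f : β → S, ∀ ω, 0 < p ω → y ω = f (B ω) := by
  classical
  refine ⟨fun a => if h : ∃ ω, 0 < p ω ∧ B ω = a then y h.choose else Classical.arbitrary S,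
    fun ω hω => ?_⟩
  have hex : ∃ ω', 0 < p ω' ∧ B ω' = B ω := ⟨ω, hω, rfl⟩
  dsimp only
  rw [dif_pos hex]
  exact h ω _ hω hex.choose_spec.1 hex.choose_spec.2.symm

theorem ind_le_ind {P Q : Prop} (h : P → Q) : ind P ≤ ind Q := by
  unfold ind
  by_cases hP : P
  · rw [if_pos hP, if_pos (h hP)]
  · rw [if_neg hP]
    split_ifs <;> norm_num

theorem Ex_ind_zero {p : Ω → ℝ} (hp : ∀ ω, 0 ≤ p ω) {P : Ω → Prop} (h : ∀ ω, 0 < p ω → ¬ P ω) :
    Ex p (fun ω => ind (P ω)) = 0 := by
  unfold Ex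
  refine Finset.sum_eq_zero fun ω _ => ?_
  rcases (hp ω).eq_or_lt with h0 | h0
  · rw [← h0, zero_mul]
  · unfold ind
    simp [h ω h0]

theorem Cn.mono {p : Ω → ℝ} (hp : ∀ ω, 0 ≤ p ω) {B : Ω → β} {f : Ω → Fin c → ℝ} {δ δ' e e' : ℝ}
    (h : Cn p B f δ e) (hδ : δ ≤ δ') (he : e ≤ e') : Cn p B f δ' e' := by
  obtain ⟨cen, h⟩ := h
  refine ⟨cen, le_trans (Ex_mono hp fun ω _ => ?_) (h.trans he)⟩
  exact ind_le_ind fun h1 h2 => h1 fun i => (h2 i).trans hδ

theorem Cn.of_det {p : Ω → ℝ} (hp : ∀ ω, 0 ≤ p ω) {B : Ω → β} {f : Ω → Fin c → ℝ}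
    (h : Det p B f) : Cn p B f 0 0 := by
  obtain ⟨φ, hφ⟩ := det_fun h
  refine ⟨φ, le_of_eq (Ex_ind_zero hp fun ω h0 h1 => h1 fun i => ?_)⟩
  rw [hφ ω h0, sub_self, abs_zero]

theorem Cn.comp {p : Ω → ℝ} (hp : ∀ ω, 0 ≤ p ω) {B : Ω → β} {B' : Ω → T} {f : Ω → Fin c → ℝ}
    {δ e : ℝ} (h : Cn p B f δ e) (hB : Det p B' B) : Cn p B' f δ e := by
  obtain ⟨cen, h⟩ := h
  have hne : Nonempty Ω ∨ IsEmpty Ω := (isEmpty_or_nonempty Ω).symm
  rcases hne with hne | hne
  · have : Nonempty β := ⟨B hne.some⟩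
    obtain ⟨φ, hφ⟩ := det_fun hB
    refine ⟨fun b => cen (φ b), le_trans (Ex_mono hp fun ω h0 => ?_) h⟩
    refine ind_le_ind fun h1 h2 => h1 fun i => ?_
    show |f ω i - cen (φ (B' ω)) i| ≤ δ
    rw [← hφ ω h0]
    exact h2 i
  · refine ⟨fun _ => 0, le_trans (le_of_eq ?_) h⟩
    unfold Ex
    rw [Finset.univ_eq_empty, Finset.sum_empty, Finset.sum_empty]

theorem Cn.smul {p : Ω → ℝ} (hp : ∀ ω, 0 ≤ p ω) {B : Ω → β} {f : Ω → Fin c → ℝ}
    {δ e r : ℝ} (hr : 0 < r) (h : Cn p B f δ e) : Cn p B (fun ω i => f ω i / r) (δ / r) e := by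
  obtain ⟨cen, h⟩ := h
  refine ⟨fun b i => cen b i / r, le_trans (Ex_mono hp fun ω _ => ?_) h⟩
  refine ind_le_ind fun h1 h2 => h1 fun i => ?_
  rw [← sub_div, abs_div, abs_of_pos hr]
  exact div_le_div_of_nonneg_right (h2 i) hr.le

theorem Cn.sum {p : Ω → ℝ} (hp : ∀ ω, 0 ≤ p ω) {B : Ω → β} {k : ℕ} {f : Fin k → Ω → Fin c → ℝ}
    {δ e : Fin k → ℝ} (h : ∀ a, Cn p B (f a) (δ a) (e a)) :
    Cn p B (fun ω i => ∑ a, f a ω i) (∑ a, δ a) (∑ a, e a) := by
  choose cen h using h
  refine ⟨fun b i => ∑ a, cen a b i, ?_⟩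
  have h1 : Ex p (fun ω => ind (¬ ∀ i, |∑ a, f a ω i - ∑ a, cen a (B ω) i| ≤ ∑ a, δ a)) ≤
      ∑ a, Ex p (fun ω => ind (¬ ∀ i, |f a ω i - cen a (B ω) i| ≤ δ a)) := by
    unfold Ex
    rw [Finset.sum_comm]
    refine Finset.sum_le_sum fun ω _ => ?_
    rw [← Finset.mul_sum]
    refine mul_le_mul_of_nonneg_left ?_ (hp ω)
    dsimp only
    by_cases h2 : ∀ a, ∀ i, |f a ω i - cen a (B ω) i| ≤ δ a
    · have h3 : ∀ i, |∑ a, f a ω i - ∑ a, cen a (B ω) i| ≤ ∑ a, δ a := by
        intro i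
        rw [← Finset.sum_sub_distrib]
        exact (Finset.abs_sum_le_sum_abs _ _).trans (Finset.sum_le_sum fun a _ => h2 a i)
      have h4 : ind (¬ ∀ i, |∑ a, f a ω i - ∑ a, cen a (B ω) i| ≤ ∑ a, δ a) = 0 := by
        unfold ind
        rw [if_neg (not_not.2 h3)]
      rw [h4]
      exact Finset.sum_nonneg fun a _ => ind_nonneg _
    · push Not at h2
      obtain ⟨a, i, h3⟩ := h2
      have h4 : ind (¬ ∀ i, |f a ω i - cen a (B ω) i| ≤ δ a) = 1 := by
        unfold ind
        rw [if_pos (fun h => absurd (h i) (not_le.2 h3))]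
      calc ind (¬ ∀ i, |∑ a, f a ω i - ∑ a, cen a (B ω) i| ≤ ∑ a, δ a) ≤ 1 := by
            unfold ind; split_ifs <;> norm_num
        _ = ind (¬ ∀ i, |f a ω i - cen a (B ω) i| ≤ δ a) := h4.symm
        _ ≤ ∑ a, ind (¬ ∀ i, |f a ω i - cen a (B ω) i| ≤ δ a) :=
            Finset.single_le_sum (f := fun a => ind (¬ ∀ i, |f a ω i - cen a (B ω) i| ≤ δ a))
              (fun a _ => ind_nonneg _) (Finset.mem_univ a)
  exact h1.trans (Finset.sum_le_sum fun a _ => h a)

/-- A centre from typical pairs. -/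
theorem Cn.of_pair {p : Ω → ℝ} (hp : IsLaw p) {B : Ω → β} {f : Ω → Fin c → ℝ} {δ e : ℝ}
    (h : Ex (dbl p B) (fun x => ind (¬ ∀ i, |f x.1 i - f x.2 i| ≤ δ)) ≤ e) : Cn p B f δ e := by
  obtain ⟨cen, -, h2⟩ := centre hp B (fun ω ω' => ¬ ∀ i, |f ω i - f ω' i| ≤ δ)
  refine ⟨fun b i => f (cen b) i, le_trans (Ex_mono hp.nonneg fun ω _ => ?_) (h2.trans h)⟩
  refine ind_le_ind fun h1 h3 => h1 fun i => ?_
  rw [abs_sub_comm]
  exact h3 i

/-! ### The staged lemma -/

theorem abs_sub_of_floor' {a b : ℝ} (h : ⌊a⌋ = ⌊b⌋) : |a - b| ≤ 1 := by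
  have h1 := Int.floor_le a
  have h2 := Int.lt_floor_add_one a
  have h3 := Int.floor_le b
  have h4 := Int.lt_floor_add_one b
  rw [h] at h1 h2
  rw [abs_le]
  constructor <;> linarith

section Staged

variable {Γ : Fin c → Type} (G : (a : Fin c) → Ω → Γ a) (g : Fin c → Ω → ℝ)
  (F : Fin c → Ω → Fin c → ℝ) (K W : ℕ) (d : Fin c → ℕ)

/-- The scaled digits. -/
noncomputable def sv (ω : Ω) (b : Fin c) : ℝ := g b ω / 2 ^ (K * d b)

/-- The whole perturbation. -/
noncomputable def sf (ω : Ω) (b : Fin c) : ℝ := ∑ a, F a ω b / 2 ^ (K * d a)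

/-- The cell of the sum of the signals. -/
noncomputable def sY (ω : Ω) (b : Fin c) : ℤ :=
  ⌊(2 : ℝ) ^ (K * (d b + W)) * (sv g K d ω b + sf F K d ω b)⌋

/-- The samples of the signals whose digits are all revealed. -/
def dn (l : ℕ) (ω : Ω) (b : Fin c) : Option (Γ b) := if d b + W ≤ l then some (G b ω) else none

/-- The samples of the other signals. -/
def ot (a : Fin c) (ω : Ω) (b : Fin c) : Option (Γ b) := if b = a then none else some (G b ω)

/-- The condition at the level `l`. -/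
noncomputable def cd (Z : Ω → ζ) (l : ℕ) (ω : Ω) :
    ((b : Fin c) → Option (Γ b)) × ((Fin c → ℤ) × ζ) :=
  (dn G W d l ω, (qv (K * l) (sv g K d) ω, Z ω))

variable {G g F K W d}

omit [Fintype Ω] in
theorem dn_det {p : Ω → ℝ} {l l' : ℕ} (h : l ≤ l') : Det p (dn G W d l') (dn G W d l) := by
  intro ω ω' _ _ h1
  funext b
  have h2 := congrFun h1 b
  unfold dn at h2 ⊢
  by_cases h3 : d b + W ≤ l
  · rw [if_pos h3, if_pos h3]
    rwa [if_pos (h3.trans h), if_pos (h3.trans h)] at h2
  · rw [if_neg h3, if_neg h3]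

omit [Fintype Ω] in
/-- The condition at a deeper level determines the digits and the condition of the level. -/
theorem cd_det {p : Ω → ℝ} (Z : Ω → ζ) (l : ℕ) :
    Det p (cd G g K W d Z (l + 1))
      (fun ω => (qv (K * (l + 1)) (sv g K d) ω, cd G g K W d Z l ω)) := by
  intro ω ω' a b h
  unfold cd at h ⊢
  simp only [Prod.mk.injEq] at h ⊢
  refine ⟨h.2.1, dn_det (p := p) (Nat.le_succ l) ω ω' a b h.1, ?_, h.2.2⟩
  exact qv_det (p := p) (Nat.mul_le_mul_left K (Nat.le_succ l)) (sv g K d) ω ω' a b h.2.1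

omit [Fintype Ω] in
theorem sv_eq {p : Ω → ℝ} (hg : ∀ a, Det p (G a) (g a)) {ω ω' : Ω} (a : 0 < p ω) (b : 0 < p ω')
    {i : Fin c} (h : G i ω = G i ω') : sv g K d ω i = sv g K d ω' i := by
  unfold sv
  rw [hg i ω ω' a b h]

/-- The entropy of the digits of the level `l` of the signal `a`, given the other signals. -/
noncomputable def hd (p : Ω → ℝ) (Z : Ω → ζ) (G : (a : Fin c) → Ω → Γ a) (g : Fin c → Ω → ℝ)
    (K W : ℕ) (d : Fin c → ℕ) (l : ℕ) (a : Fin c) : ℝ :=
  if l < d a + W then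
    CH p (fun ω => qv (K * (l + 1)) (sv g K d) ω a)
      (fun ω => (qv (K * l) (sv g K d) ω a, (ot G a ω, Z ω)))
  else 0

/-- The digits of a level are at least the sum of the contributions of the signals. -/
theorem level_low {p : Ω → ℝ} (hp : IsLaw p) (Z : Ω → ζ) (hg : ∀ a, Det p (G a) (g a)) (l : ℕ) :
    ∑ a, hd p Z G g K W d l a ≤
      CH p (qv (K * (l + 1)) (sv g K d)) (cd G g K W d Z l) := by
  refine CH_tuple hp (fun a ω => qv (K * (l + 1)) (sv g K d) ω a) (cd G g K W d Z l) _ fun a => ?_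
  unfold hd
  split_ifs with h
  · refine CH_mono_cond hp.nonneg fun ω ω' h1 h2 h3 => ?_
    simp only [Prod.mk.injEq] at h3
    obtain ⟨h4, h5, h6⟩ := h3
    have h7 : ∀ b, b ≠ a → G b ω = G b ω' := by
      intro b hb
      have := congrFun h5 b
      unfold ot at this
      rw [if_neg hb, if_neg hb] at this
      exact Option.some.inj this
    have h8 : ∀ b, b ≠ a → ∀ m, qv m (sv g K d) ω b = qv m (sv g K d) ω' b := by
      intro b hb m
      unfold qv
      rw [sv_eq hg h1 h2 (h7 b hb)]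
    refine Prod.ext (funext fun b => ?_) (Prod.ext (funext fun b => ?_)
      (Prod.ext (funext fun b => ?_) h6))
    · dsimp only
      by_cases hb : b = a
      · rw [if_pos hb, if_pos hb]
      · rw [if_neg hb, if_neg hb]
        exact h8 b hb _
    · show dn G W d l ω b = dn G W d l ω' b
      unfold dn
      by_cases hb : b = a
      · subst hb
        rw [if_neg (not_le.2 h), if_neg (not_le.2 h)]
      · rw [h7 b hb]
    · show qv (K * l) (sv g K d) ω b = qv (K * l) (sv g K d) ω' b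
      by_cases hb : b = a
      · rw [hb]
        exact h4
      · exact h8 b hb _
  · exact CH_nonneg hp.nonneg _ _

/-- The error of a level. -/
noncomputable def er (K W : ℕ) (d : Fin c → ℕ) (e : Fin c → ℕ → ℝ) (l : ℕ) : ℝ :=
  Real.log 2 + c * (Real.log 9 +
    (∑ a, if l < d a + W then e a (l - d a) else 0) * ((K + 2) * Real.log 2))

/-- The digits of a level are nearly determined by the cell of the sum. -/
theorem level_up {p : Ω → ℝ} (hp : IsLaw p) (Z : Ω → ζ) (hg : ∀ a, Det p (G a) (g a))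
    (h01 : ∀ a ω, 0 < p ω → 0 ≤ g a ω ∧ g a ω < 1)
    (hF : ∀ a, Det p (fun ω => (G a ω, Z ω)) (F a)) (hW : 0 < W) (e : Fin c → ℕ → ℝ)
    (hc : ∀ a, ∀ w < W, Cn p (fun ω => (⌊(2 : ℝ) ^ (K * w) * g a ω⌋, Z ω)) (F a)
      (1 / (c * 2 ^ (K * (w + 1)))) (e a w)) (l : ℕ) :
    CH p (qv (K * (l + 1)) (sv g K d))
      (fun ω => (sY g F K W d ω, cd G g K W d Z l ω)) ≤ er K W d e l := by
  classical
  have e1 : K * (l + 1) = K * l + K := by ring
  have key : Cn p (fun ω => (sY g F K W d ω, cd G g K W d Z l ω)) (sf F K d)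
      (1 / 2 ^ (K * l + K)) (∑ a, if l < d a + W then e a (l - d a) else 0) := by
    have h1 : ∀ a, Cn p (fun ω => (sY g F K W d ω, cd G g K W d Z l ω))
        (fun ω i => F a ω i / 2 ^ (K * d a)) (1 / (c * 2 ^ (K * l + K)))
        (if l < d a + W then e a (l - d a) else 0) := by
      intro a
      have hc0 : (0 : ℝ) < c := by
        have := a.2
        exact_mod_cast (by omega : 0 < c)
      by_cases h : l < d a + W
      · rw [if_pos h]
        have h2 := hc a (l - d a) (by omega)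
        have h3 := (h2.smul hp.nonneg (r := 2 ^ (K * d a)) (by positivity)).comp hp.nonneg
          (B' := fun ω => (sY g F K W d ω, cd G g K W d Z l ω)) (by
            intro ω ω' b1 b2 h4
            unfold cd at h4
            simp only [Prod.mk.injEq] at h4
            obtain ⟨-, -, h5, h6⟩ := h4
            refine Prod.ext ?_ h6
            show ⌊(2 : ℝ) ^ (K * (l - d a)) * g a ω⌋ = ⌊(2 : ℝ) ^ (K * (l - d a)) * g a ω'⌋
            by_cases hd : d a ≤ l
            · have h7 := congrFun h5 a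
              unfold qv sv at h7
              have h8 : ∀ ω, (2 : ℝ) ^ (K * l) * (g a ω / 2 ^ (K * d a)) =
                  2 ^ (K * (l - d a)) * g a ω := by
                intro ω
                have : (2 : ℝ) ^ (K * l) = 2 ^ (K * (l - d a)) * 2 ^ (K * d a) := by
                  rw [← pow_add, ← Nat.mul_add]
                  congr 2
                  omega
                rw [this]
                field_simp
              rwa [h8, h8] at h7
            · have h7 : l - d a = 0 := by omega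
              rw [h7, Nat.mul_zero, pow_zero, one_mul, one_mul]
              have h8 := h01 a ω b1
              have h9 := h01 a ω' b2
              rw [Int.floor_eq_zero_iff.2 ⟨h8.1, h8.2⟩, Int.floor_eq_zero_iff.2 ⟨h9.1, h9.2⟩])
        refine h3.mono hp.nonneg ?_ le_rfl
        rw [div_div]
        refine one_div_le_one_div_of_le (by positivity) ?_
        rw [mul_assoc, ← pow_add]
        refine mul_le_mul_of_nonneg_left ?_ hc0.le
        refine pow_le_pow_right₀ (by norm_num) ?_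
        rw [← Nat.mul_add, ← e1]
        exact Nat.mul_le_mul_left K (by omega)
      · rw [if_neg h]
        have h2 : Det p (fun ω => (sY g F K W d ω, cd G g K W d Z l ω))
            (fun ω i => F a ω i / 2 ^ (K * d a)) := by
          intro ω ω' b1 b2 h4
          unfold cd at h4
          simp only [Prod.mk.injEq] at h4
          obtain ⟨-, h3, -, h6⟩ := h4
          have h5 := congrFun h3 a
          unfold dn at h5
          rw [if_pos (not_lt.1 h), if_pos (not_lt.1 h)] at h5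
          have h7 := hF a ω ω' b1 b2 (Prod.ext (Option.some.inj h5) h6)
          funext i
          show F a ω i / 2 ^ (K * d a) = F a ω' i / 2 ^ (K * d a)
          rw [h7]
        exact (Cn.of_det hp.nonneg h2).mono hp.nonneg (by positivity) le_rfl
    have h2 := (Cn.sum hp.nonneg h1).mono hp.nonneg (δ' := 1 / 2 ^ (K * l + K)) (by
      rw [Finset.sum_const, Finset.card_univ, Fintype.card_fin, nsmul_eq_mul]
      rcases Nat.eq_zero_or_pos c with h0 | h0
      · rw [h0]
        simp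
      · have : (0 : ℝ) < c := by exact_mod_cast h0
        refine le_of_eq ?_
        field_simp) le_rfl
    exact h2
  obtain ⟨cen, hcen⟩ := key
  unfold er
  rw [e1]
  refine step_cen hp _ (sv g K d) (sf F K d) (K * l) K ?_ ?_ cen _ hcen
  · intro ω ω' _ _ h i
    unfold cd at h
    simp only [Prod.mk.injEq] at h
    exact near_of_qv h.2.2.1 i
  · intro ω ω' b1 b2 h i
    unfold cd at h
    simp only [Prod.mk.injEq] at h
    obtain ⟨h2, h3, -, -⟩ := h
    by_cases hi : d i + W ≤ l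
    · left
      have h5 := congrFun h3 i
      unfold dn at h5
      rw [if_pos hi, if_pos hi] at h5
      exact sv_eq hg b1 b2 (Option.some.inj h5)
    · right
      have h5 := congrFun h2 i
      unfold sY at h5
      have h6 := abs_sub_of_floor' h5
      rw [← mul_sub, abs_mul, abs_of_pos (by positivity : (0 : ℝ) < 2 ^ (K * (d i + W)))] at h6
      rw [← mul_sub, abs_mul, abs_of_pos (by positivity : (0 : ℝ) < 2 ^ (K * l + K))]
      refine le_trans (mul_le_mul_of_nonneg_right ?_ (abs_nonneg _)) h6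
      refine pow_le_pow_right₀ (by norm_num) ?_
      rw [← e1]
      exact Nat.mul_le_mul_left K (by omega)

/-- The sum over the levels of the contributions of one signal. -/
theorem hd_sum {p : Ω → ℝ} (hp : IsLaw p) (Z : Ω → ζ)
    (h01 : ∀ a ω, 0 < p ω → 0 ≤ g a ω ∧ g a ω < 1) (a : Fin c) {N : ℕ} (hN : d a + W ≤ N) :
    CH p (fun ω => ⌊(2 : ℝ) ^ (K * W) * g a ω⌋) (fun ω => (ot G a ω, Z ω)) ≤
      ∑ l ∈ Finset.range N, hd p Z G g K W d l a := by
  classical
  set C : Ω → ((b : Fin c) → Option (Γ b)) × ζ := fun ω => (ot G a ω, Z ω) with hC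
  set x : ℕ → Ω → ℤ := fun l ω => qv (K * l) (sv g K d) ω a with hx
  have h1 : ∀ M ≤ d a + W, ∑ l ∈ Finset.range M, hd p Z G g K W d l a = CH p (x M) C - CH p (x 0) C := by
    intro M
    induction M with
    | zero => intro _; simp
    | succ M ih =>
      intro hM
      rw [Finset.sum_range_succ, ih (by omega)]
      have h2 : hd p Z G g K W d M a = CH p (x (M + 1)) (fun ω => (x M ω, C ω)) := by
        unfold hd
        rw [if_pos (by omega)]
      have h3 := CH_chain hp.nonneg (x (M + 1)) (x M) C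
      have h4 : CH p (fun ω => (x (M + 1) ω, x M ω)) C = CH p (x (M + 1)) C := by
        refine CH_congr hp.nonneg ?_ ?_ (fun _ _ _ _ h => h) (fun _ _ _ _ h => h)
        · intro ω ω' _ _ h
          simp only [Prod.mk.injEq] at h
          exact h.1.1
        · intro ω ω' _ _ h
          simp only [Prod.mk.injEq] at h
          have h5 : x M ω = x M ω' := by
            show qv (K * M) (sv g K d) ω a = qv (K * M) (sv g K d) ω' a
            have h6 : K * M ≤ K * (M + 1) := Nat.mul_le_mul_left K (Nat.le_succ M)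
            rw [qv_of_le h6, qv_of_le h6]
            have h7 : qv (K * (M + 1)) (sv g K d) ω a = qv (K * (M + 1)) (sv g K d) ω' a := h.1
            rw [h7]
          exact Prod.ext h.1 h5
      rw [h2]
      linarith
  have h2 : CH p (x 0) C = 0 := by
    refine CH_eq_zero hp.nonneg fun ω ω' b1 b2 _ => ?_
    show ⌊(2 : ℝ) ^ (K * 0) * sv g K d ω a⌋ = ⌊(2 : ℝ) ^ (K * 0) * sv g K d ω' a⌋
    have h3 : ∀ ω, 0 < p ω → ⌊(2 : ℝ) ^ (K * 0) * sv g K d ω a⌋ = 0 := by
      intro ω hω
      rw [Nat.mul_zero, pow_zero, one_mul]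
      obtain ⟨h4, h5⟩ := h01 a ω hω
      unfold sv
      rw [Int.floor_eq_zero_iff]
      refine ⟨by positivity, lt_of_le_of_lt ?_ h5⟩
      exact div_le_self h4 (one_le_pow₀ (by norm_num))
    rw [h3 ω b1, h3 ω' b2]
  have h3 : CH p (x (d a + W)) C = CH p (fun ω => ⌊(2 : ℝ) ^ (K * W) * g a ω⌋) C := by
    have h4 : x (d a + W) = fun ω => ⌊(2 : ℝ) ^ (K * W) * g a ω⌋ := by
      funext ω
      show ⌊(2 : ℝ) ^ (K * (d a + W)) * (g a ω / 2 ^ (K * d a))⌋ = _
      congr 1
      rw [Nat.mul_add, pow_add]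
      field_simp
    rw [h4]
  have h4 := h1 (d a + W) le_rfl
  rw [h2, h3, sub_zero] at h4
  rw [← h4]
  refine Finset.sum_le_sum_of_subset_of_nonneg (Finset.range_subset_range.2 hN) fun l _ _ => ?_
  unfold hd
  split_ifs
  · exact CH_nonneg hp.nonneg _ _
  · exact le_rfl

/-- **The staged signal lemma.** -/
theorem stage_thm {p : Ω → ℝ} (hp : IsLaw p) (Z : Ω → ζ) (hg : ∀ a, Det p (G a) (g a))
    (h01 : ∀ a ω, 0 < p ω → 0 ≤ g a ω ∧ g a ω < 1)
    (hF : ∀ a, Det p (fun ω => (G a ω, Z ω)) (F a)) (hW : 0 < W) (e : Fin c → ℕ → ℝ)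
    (hc : ∀ a, ∀ w < W, Cn p (fun ω => (⌊(2 : ℝ) ^ (K * w) * g a ω⌋, Z ω)) (F a)
      (1 / (c * 2 ^ (K * (w + 1)))) (e a w)) {N : ℕ} (hN : ∀ a, d a + W ≤ N) :
    ∑ a, CH p (fun ω => ⌊(2 : ℝ) ^ (K * W) * g a ω⌋) (fun ω => (ot G a ω, Z ω)) ≤
      CH p (sY g F K W d) Z + ∑ l ∈ Finset.range N, er K W d e l := by
  classical
  have h1 : ∀ M, CH p (sY g F K W d) (cd G g K W d Z M) +
      ∑ l ∈ Finset.range M, (∑ a, hd p Z G g K W d l a - er K W d e l) ≤
      CH p (sY g F K W d) (cd G g K W d Z 0) := by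
    intro M
    induction M with
    | zero => simp
    | succ M ih =>
      rw [Finset.sum_range_succ]
      have h2 := level_low (g := g) (K := K) (W := W) (d := d) hp Z hg M
      have h3 := level_up (d := d) hp Z hg h01 hF hW e hc M
      have h4 := CH_chain hp.nonneg (qv (K * (M + 1)) (sv g K d)) (sY g F K W d)
        (cd G g K W d Z M)
      have h5 := CH_chain hp.nonneg (sY g F K W d) (qv (K * (M + 1)) (sv g K d))
        (cd G g K W d Z M)
      have h6 : CH p (fun ω => (qv (K * (M + 1)) (sv g K d) ω, sY g F K W d ω))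
          (cd G g K W d Z M) = CH p (fun ω => (sY g F K W d ω, qv (K * (M + 1)) (sv g K d) ω))
          (cd G g K W d Z M) := by
        refine CH_congr hp.nonneg ?_ ?_ (fun _ _ _ _ h => h) (fun _ _ _ _ h => h) <;>
        · intro ω ω' _ _ h
          simp only [Prod.mk.injEq] at h ⊢
          tauto
      have h7 : CH p (sY g F K W d) (cd G g K W d Z (M + 1)) ≤ CH p (sY g F K W d)
          (fun ω => (qv (K * (M + 1)) (sv g K d) ω, cd G g K W d Z M ω)) :=
        CH_mono_cond hp.nonneg (cd_det Z M)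
      linarith
  have h2 := h1 N
  have h3 : CH p (sY g F K W d) (cd G g K W d Z 0) ≤ CH p (sY g F K W d) Z := by
    refine CH_mono_cond hp.nonneg fun ω ω' _ _ h => ?_
    unfold cd at h
    simp only [Prod.mk.injEq] at h
    exact h.2.2
  have h4 := CH_nonneg hp.nonneg (sY g F K W d) (cd G g K W d Z N)
  rw [Finset.sum_sub_distrib, Finset.sum_comm] at h2
  have h5 : ∑ a, CH p (fun ω => ⌊(2 : ℝ) ^ (K * W) * g a ω⌋) (fun ω => (ot G a ω, Z ω)) ≤
      ∑ a, ∑ l ∈ Finset.range N, hd p Z G g K W d l a :=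
    Finset.sum_le_sum fun a _ => hd_sum hp Z h01 a (hN a)
  linarith

end Staged

end Pool.OCK
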