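import Pool.Agent.H77.S6.Near

/-!
# Signals with a small perturbation (row 366, R3)

`v` is a vector of real variables and `f` a perturbation. Two typical copies with the same digits of
`v` before a window of `K` digits have nearly the same `f`, up to the precision of the window. Then
the digits of `v` are determined by those of `v + f` up to a bounded number of possibilities in
every window.
-/

set_option autoImplicit false

namespace Pool.OCK

open Finset Real
open Pool.Agent.H49.Ent Pool.Agent.H32.Dense Pool.STK Pool.KS6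

variable {Ω S T ζ : Type} [Fintype Ω] {c : ℕ}

/-- The digits of a real vector. -/
noncomputable def qv (m : ℕ) (v : Ω → Fin c → ℝ) (ω : Ω) : Fin c → ℤ := fun i => ⌊(2 : ℝ) ^ m * v ω i⌋

omit [Fintype Ω] in
theorem qv_of_le {m n : ℕ} (h : m ≤ n) (v : Ω → Fin c → ℝ) (ω : Ω) (i : Fin c) :
    qv m v ω i = qv n v ω i / 2 ^ (n - m) := by
  unfold qv
  have h1 : ((2 : ℝ) ^ m * v ω i) = (2 : ℝ) ^ n * v ω i / ((2 ^ (n - m) : ℕ) : ℝ) := by
    push_cast
    rw [eq_div_iff (by positivity)]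
    have : (2 : ℝ) ^ n = 2 ^ m * 2 ^ (n - m) := by rw [← pow_add]; congr 1; omega
    rw [this]
    ring
  rw [h1, Int.floor_div_natCast]
  push_cast
  rfl

omit [Fintype Ω] in
/-- Digits determine the digits of lower order. -/
theorem qv_det {p : Ω → ℝ} {m n : ℕ} (h : m ≤ n) (v : Ω → Fin c → ℝ) : Det p (qv n v) (qv m v) := by
  intro ω ω' _ _ h1
  funext i
  rw [qv_of_le h, qv_of_le h, h1]

theorem floor_near {a b : ℝ} {M : ℝ} (h : |a - b| ≤ M) : |((⌊a⌋ - ⌊b⌋ : ℤ) : ℝ)| ≤ M + 1 := by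
  push_cast
  have h1 := Int.floor_le a
  have h2 := Int.lt_floor_add_one a
  have h3 := Int.floor_le b
  have h4 := Int.lt_floor_add_one b
  rw [abs_le] at h ⊢
  constructor <;> linarith [h.1, h.2]

omit [Fintype Ω] in
/-- The same digits of order `m`: the numbers are close. -/
theorem near_of_qv {m : ℕ} {v : Ω → Fin c → ℝ} {ω ω' : Ω} (h : qv m v ω = qv m v ω') (i : Fin c) :
    |(2 : ℝ) ^ m * v ω i - (2 : ℝ) ^ m * v ω' i| ≤ 1 := by
  have h0 : ⌊(2 : ℝ) ^ m * v ω i⌋ = ⌊(2 : ℝ) ^ m * v ω' i⌋ := congrFun h i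
  have h1 := Int.floor_le ((2 : ℝ) ^ m * v ω i)
  have h2 := Int.lt_floor_add_one ((2 : ℝ) ^ m * v ω i)
  have h3 := Int.floor_le ((2 : ℝ) ^ m * v ω' i)
  have h4 := Int.lt_floor_add_one ((2 : ℝ) ^ m * v ω' i)
  rw [h0] at h1 h2
  rw [abs_le]
  constructor <;> linarith

/-- One window. -/
theorem sig_step {p : Ω → ℝ} (hp : IsLaw p) (Z : Ω → ζ) (v f : Ω → Fin c → ℝ) (m K Q : ℕ)
    (hQ : m + K ≤ Q) (e : ℝ)
    (he : Ex (dbl p (fun ω => (qv m v ω, Z ω)))
      (fun x => ind (¬ ∀ i, |f x.1 i - f x.2 i| ≤ 1 / 2 ^ (m + K))) ≤ e) :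
    CH p (qv (m + K) v) (fun ω => (qv m v ω, (qv Q (fun ω i => v ω i + f ω i) ω, Z ω))) ≤
      Real.log 2 + c * (Real.log 9 + e * ((K + 2) * Real.log 2)) := by
  classical
  set B : Ω → (Fin c → ℤ) × ζ := fun ω => (qv m v ω, Z ω) with hB
  set s : Ω → Fin c → ℝ := fun ω i => v ω i + f ω i with hs
  obtain ⟨cen, hc1, hc2⟩ := centre hp B (fun ω ω' => ¬ ∀ i, |f ω i - f ω' i| ≤ 1 / 2 ^ (m + K))
  set I : Ω → Bool := fun ω => decide (∀ i, |f (cen (B ω)) i - f ω i| ≤ 1 / 2 ^ (m + K)) with hI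
  set W : Ω → (Fin c → ℤ) × ((Fin c → ℤ) × ζ) := fun ω => (qv m v ω, (qv Q s ω, Z ω)) with hW
  have h1 : CH p (qv (m + K) v) W ≤ CH p I W + CH p (qv (m + K) v) (fun ω => (I ω, W ω)) :=
    CH_le_add hp.nonneg _ I W
  have h2 : CH p I W ≤ Real.log 2 := by
    have h3 := CH_le_card hp.nonneg hp.sum_one I W (fun _ => Finset.univ)
      (fun ω _ => Finset.mem_univ _)
    refine h3.trans ?_
    rw [Ex_const hp.sum_one]
    simp
  have hpow : (0 : ℝ) < 2 ^ (m + K) := by positivity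
  set L : Ω → ℝ := fun ω => if I ω = true then 4 else 2 ^ K + 1 with hL
  have h4 : CH p (qv (m + K) v) (fun ω => (I ω, W ω)) ≤
      c * Ex p (fun ω => Real.log (2 * L ω + 1)) := by
    refine CH_le_vec hp.nonneg hp.sum_one _ _ L ?_
    intro ω ω' hω hω' h i
    simp only [hW, Prod.mk.injEq] at h
    obtain ⟨h5, h6, h7, h8⟩ := h
    have hBB : B ω = B ω' := by rw [hB]; exact Prod.ext h6 h8
    show |((⌊(2 : ℝ) ^ (m + K) * v ω i⌋ - ⌊(2 : ℝ) ^ (m + K) * v ω' i⌋ : ℤ) : ℝ)| ≤ L ω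
    by_cases h9 : I ω = true
    · rw [hL]
      dsimp only
      rw [if_pos h9]
      have h10 : I ω' = true := h5 ▸ h9
      have a1 := of_decide_eq_true h9 i
      have a2 := of_decide_eq_true h10 i
      rw [← hBB] at a2
      have a3 := near_of_qv h7 i
      have a4 : |(2 : ℝ) ^ (m + K) * s ω i - (2 : ℝ) ^ (m + K) * s ω' i| ≤ 1 := by
        rw [← mul_sub, abs_mul, abs_of_pos hpow]
        rw [← mul_sub, abs_mul, abs_of_pos (by positivity : (0 : ℝ) < 2 ^ Q)] at a3
        refine le_trans (mul_le_mul_of_nonneg_right ?_ (abs_nonneg _)) a3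
        exact pow_le_pow_right₀ (by norm_num) hQ
      have a5 : ∀ x y : ℝ, |x - y| ≤ 1 / 2 ^ (m + K) →
          |(2 : ℝ) ^ (m + K) * x - (2 : ℝ) ^ (m + K) * y| ≤ 1 := by
        intro x y h
        rw [← mul_sub, abs_mul, abs_of_pos hpow]
        calc (2 : ℝ) ^ (m + K) * |x - y| ≤ 2 ^ (m + K) * (1 / 2 ^ (m + K)) :=
              mul_le_mul_of_nonneg_left h hpow.le
          _ = 1 := by field_simp
      have a6 := a5 _ _ a1
      have a7 := a5 _ _ a2
      have a8 : |(2 : ℝ) ^ (m + K) * v ω i - (2 : ℝ) ^ (m + K) * v ω' i| ≤ 3 := by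
        have e1 : (2 : ℝ) ^ (m + K) * v ω i - (2 : ℝ) ^ (m + K) * v ω' i =
            ((2 : ℝ) ^ (m + K) * s ω i - (2 : ℝ) ^ (m + K) * s ω' i) +
            (((2 : ℝ) ^ (m + K) * f (cen (B ω)) i - (2 : ℝ) ^ (m + K) * f ω i) -
            ((2 : ℝ) ^ (m + K) * f (cen (B ω)) i - (2 : ℝ) ^ (m + K) * f ω' i)) := by
          rw [hs]
          ring
        rw [e1]
        refine (abs_add_le _ _).trans ?_
        have := abs_sub ((2 : ℝ) ^ (m + K) * f (cen (B ω)) i - (2 : ℝ) ^ (m + K) * f ω i)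
          ((2 : ℝ) ^ (m + K) * f (cen (B ω)) i - (2 : ℝ) ^ (m + K) * f ω' i)
        linarith
      have := floor_near a8
      linarith
    · rw [hL]
      dsimp only
      rw [if_neg h9]
      have a1 := near_of_qv h6 i
      refine floor_near ?_
      rw [← mul_sub, abs_mul, abs_of_pos hpow, pow_add]
      rw [← mul_sub, abs_mul, abs_of_pos (by positivity : (0 : ℝ) < 2 ^ m)] at a1
      have hK : (0 : ℝ) ≤ 2 ^ K := by positivity
      nlinarith [mul_le_mul_of_nonneg_left a1 hK]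
  have hl2 : 0 ≤ Real.log 2 := Real.log_nonneg (by norm_num)
  have hlogM : Real.log (2 * (2 ^ K + 1) + 1) ≤ (K + 2) * Real.log 2 + Real.log 9 := by
    have e1 : ((K : ℝ) + 2) * Real.log 2 = Real.log (2 ^ (K + 2)) := by
      rw [Real.log_pow]
      push_cast
      ring
    rw [e1, ← Real.log_mul (by positivity) (by norm_num)]
    refine Real.log_le_log (by positivity) ?_
    have : (1 : ℝ) ≤ 2 ^ K := one_le_pow₀ (by norm_num)
    rw [pow_add]
    nlinarith
  have h5 : Ex p (fun ω => Real.log (2 * L ω + 1)) ≤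
      Real.log 9 + e * ((K + 2) * Real.log 2) := by
    have h6 : Ex p (fun ω => Real.log (2 * L ω + 1)) ≤ Ex p (fun ω => Real.log 9 +
        ((K + 2) * Real.log 2) * ind (¬ ∀ i, |f (cen (B ω)) i - f ω i| ≤ 1 / 2 ^ (m + K))) := by
      refine Ex_mono hp.nonneg fun ω _ => ?_
      rw [hL]
      dsimp only
      by_cases h7 : I ω = true
      · rw [if_pos h7]
        have h8 := of_decide_eq_true h7
        unfold ind
        rw [if_neg (not_not.mpr h8), mul_zero, add_zero]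
        norm_num
      · rw [if_neg h7]
        have h8 : ¬ ∀ i, |f (cen (B ω)) i - f ω i| ≤ 1 / 2 ^ (m + K) :=
          fun h => h7 (decide_eq_true h)
        unfold ind
        rw [if_pos h8, mul_one]
        linarith
    rw [Ex_add, Ex_const hp.sum_one, Ex_smul] at h6
    have h9 := mul_le_mul_of_nonneg_left (hc2.trans he)
      (by positivity : (0 : ℝ) ≤ (K + 2) * Real.log 2)
    linarith
  have h10 : (c : ℝ) * Ex p (fun ω => Real.log (2 * L ω + 1)) ≤
      c * (Real.log 9 + e * ((K + 2) * Real.log 2)) :=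
    mul_le_mul_of_nonneg_left h5 (Nat.cast_nonneg c)
  linarith

/-- **The signal lemma.** The digits of `v` are nearly determined by the digits of `v + f`. -/
theorem sig_thm {p : Ω → ℝ} (hp : IsLaw p) (Z : Ω → ζ) (v f : Ω → Fin c → ℝ) (m K W Q : ℕ)
    (hQ : m + K * W ≤ Q) (e : ℕ → ℝ)
    (he : ∀ w < W, Ex (dbl p (fun ω => (qv (m + K * w) v ω, Z ω)))
      (fun x => ind (¬ ∀ i, |f x.1 i - f x.2 i| ≤ 1 / 2 ^ (m + K * w + K))) ≤ e w) :
    CH p (qv (m + K * W) v) (fun ω => (qv Q (fun ω i => v ω i + f ω i) ω, Z ω)) ≤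
      CH p (qv m v) Z +
        ∑ w ∈ Finset.range W, (Real.log 2 + c * (Real.log 9 + e w * ((K + 2) * Real.log 2))) := by
  induction W with
  | zero =>
    rw [Nat.mul_zero, Nat.add_zero, Finset.range_zero, Finset.sum_empty, add_zero]
    exact CH_mono_cond hp.nonneg (fun ω ω' _ _ h => (Prod.ext_iff.mp h).2)
  | succ W ih =>
    have h1 := ih (by nlinarith) fun w hw => he w (Nat.lt_succ_of_lt hw)
    have h2 := sig_step hp Z v f (m + K * W) K Q (by nlinarith) (e W) (he W (Nat.lt_succ_self W))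
    have h3 := CH_le_add hp.nonneg (qv (m + K * W + K) v) (qv (m + K * W) v)
      (fun ω => (qv Q (fun ω i => v ω i + f ω i) ω, Z ω))
    rw [Finset.sum_range_succ]
    have e1 : m + K * (W + 1) = m + K * W + K := by ring
    rw [e1]
    linarith

/-- **The signal lemma**, lower bound for the entropy of the signal. -/
theorem sig_low {p : Ω → ℝ} (hp : IsLaw p) (Z : Ω → ζ) (v f : Ω → Fin c → ℝ) (m K W Q : ℕ)
    (hQ : m + K * W ≤ Q) (e : ℕ → ℝ)
    (he : ∀ w < W, Ex (dbl p (fun ω => (qv (m + K * w) v ω, Z ω)))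
      (fun x => ind (¬ ∀ i, |f x.1 i - f x.2 i| ≤ 1 / 2 ^ (m + K * w + K))) ≤ e w) :
    CH p (qv (m + K * W) v) (fun ω => (qv m v ω, Z ω)) ≤
      CH p (qv Q (fun ω i => v ω i + f ω i)) Z +
        ∑ w ∈ Finset.range W, (Real.log 2 + c * (Real.log 9 + e w * ((K + 2) * Real.log 2))) := by
  have h1 := sig_thm hp Z v f m K W Q hQ e he
  have h2 := CH_chain hp.nonneg (qv (m + K * W) v) (qv m v) Z
  have h3 := CH_chain hp.nonneg (qv (m + K * W) v) (qv Q (fun ω i => v ω i + f ω i)) Z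
  have h4 : CH p (fun ω => (qv (m + K * W) v ω, qv m v ω)) Z ≤
      CH p (fun ω => (qv (m + K * W) v ω, qv Q (fun ω i => v ω i + f ω i) ω)) Z := by
    refine CH_mono_left hp.nonneg fun ω ω' a b h => ?_
    simp only [Prod.mk.injEq] at h
    have h5 := qv_det (p := p) (Nat.le_add_right m (K * W)) v ω ω' a b h.1.1
    exact Prod.ext h.1.1 h5
  linarith

end Pool.OCK
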