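import Pool.Agent.H5.FAD.Sum
import Pool.Agent.H89.OCK.Sig

/-!
# Absorption of a full signal in a box (row 366, R5, first part)

`R` is independent of the signal `φ` given `Z` and absorbs it: the entropy of `R + φ` is at most
that of `R` plus `D`. If the digits of `φ` in the coordinates of the box `A` are full from `1` to
`2 ^ (-Q)`, the body `A` is full for `R` down to `2 ^ (-Q) A`.
-/

set_option autoImplicit false

namespace Pool.OCK

open Matrix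
open Finset Real
open Pool.Agent.H49.Ent Pool.Agent.H32.Dense
open Pool.FAD Pool.STK

section Cells

variable {n : ℕ}

/-- The box `2 ^ (-Q) A`. -/
noncomputable def sc (Q : ℕ) (A : Matrix (Fin n) (Fin n) ℝ) : Matrix (Fin n) (Fin n) ℝ :=
  ((2 : ℝ) ^ Q)⁻¹ • A

theorem sc_det (Q : ℕ) {A : Matrix (Fin n) (Fin n) ℝ} (hA : A.det ≠ 0) : (sc Q A).det ≠ 0 := by
  unfold sc
  rw [Matrix.det_smul]
  exact mul_ne_zero (by positivity) hA

theorem sc_inv (Q : ℕ) {A : Matrix (Fin n) (Fin n) ℝ} (hA : A.det ≠ 0) :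
    (sc Q A)⁻¹ = (2 : ℝ) ^ Q • A⁻¹ := by
  refine Matrix.inv_eq_right_inv ?_
  unfold sc
  rw [Matrix.smul_mul, Matrix.mul_smul, smul_smul, Matrix.mul_nonsing_inv _
    (isUnit_iff_ne_zero.2 hA), inv_mul_cancel₀ (by positivity), one_smul]

theorem lv_sc (Q : ℕ) {A : Matrix (Fin n) (Fin n) ℝ} (hA : A.det ≠ 0) :
    lv (sc Q A) = lv A - n * (Q * Real.log 2) := by
  unfold lv sc
  have h1 : |A.det| ≠ 0 := abs_ne_zero.2 hA
  rw [Matrix.det_smul, abs_mul, abs_of_pos (by positivity : (0 : ℝ) < ((2 : ℝ) ^ Q)⁻¹ ^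
    Fintype.card (Fin n)), Real.log_mul (by positivity) h1, Fintype.card_fin, Real.log_pow,
    Real.log_inv, Real.log_pow]
  ring

theorem cl_sc (Q : ℕ) {A : Matrix (Fin n) (Fin n) ℝ} (hA : A.det ≠ 0) (x : Fin n → ℝ)
    (j : Fin n) : cl (sc Q A) x j = ⌊(2 : ℝ) ^ Q * (A⁻¹ *ᵥ x) j⌋ := by
  unfold cl
  rw [sc_inv Q hA, Matrix.smul_mulVec]
  rfl

/-- The carry. -/
theorem cl_add (V : Matrix (Fin n) (Fin n) ℝ) (x y : Fin n → ℝ) (j : Fin n) :
    0 ≤ cl V (x + y) j - cl V x j - cl V y j ∧ cl V (x + y) j - cl V x j - cl V y j ≤ 1 := by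
  unfold cl
  rw [Matrix.mulVec_add, Pi.add_apply]
  have h1 := Int.le_floor_add ((V⁻¹ *ᵥ x) j) ((V⁻¹ *ᵥ y) j)
  have h2 := Int.le_floor_add_floor ((V⁻¹ *ᵥ x) j) ((V⁻¹ *ᵥ y) j)
  constructor <;> omega

end Cells

section Absorb

variable {n : ℕ} {Ω ζ S T : Type} [Fintype Ω] {p : Ω → ℝ}

/-- The carry has few values. -/
theorem CH_carry (h0 : ∀ ω, 0 ≤ p ω) (h1 : ∑ ω, p ω = 1) (V : Ω → Matrix (Fin n) (Fin n) ℝ)
    (x y : Ω → Fin n → ℝ) (u : Ω → Fin n → ℤ) (C : Ω → S)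
    (hu : ∀ ω j, u ω j = cl (V ω) (x ω + y ω) j - cl (V ω) (x ω) j - cl (V ω) (y ω) j) :
    CH p u C ≤ n * Real.log 3 := by
  have key := CH_le_vec h0 h1 u C (fun _ => (1 : ℝ)) (by
    intro ω ω' _ _ _ k
    have h2 := cl_add (V ω) (x ω) (y ω) k
    have h3 := cl_add (V ω') (x ω') (y ω') k
    rw [← hu] at h2 h3
    have h4 : |u ω k - u ω' k| ≤ 1 := by rw [abs_le]; constructor <;> omega
    exact_mod_cast h4)
  rw [Ex_const h1] at key
  norm_num at key ⊢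
  exact key

/-- Digits of the sum, upper bound. -/
theorem dig_up (hp : IsLaw p) (R φ : Ω → Fin n → ℝ) (Z : Ω → ζ)
    (T : Ω → Matrix (Fin n) (Fin n) ℝ) (hT : Det p Z T)
    (hI : CH p R (fun ω => (φ ω, Z ω)) = CH p R Z) {D : ℝ}
    (hD : CH p (fun ω => R ω + φ ω) Z ≤ CH p R Z + D) :
    CH p (fun ω => cl (T ω) (R ω + φ ω)) Z ≤
      CH p (fun ω => cl (T ω) (R ω)) Z + D + n * Real.log 3 := by
  set X : Ω → Fin n → ℤ := fun ω => cl (T ω) (R ω) with hX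
  set Y : Ω → Fin n → ℤ := fun ω => cl (T ω) (R ω + φ ω) with hY
  set u : Ω → Fin n → ℤ := fun ω j => cl (T ω) (R ω + φ ω) j - cl (T ω) (R ω) j - cl (T ω) (φ ω) j
    with hu
  -- `H(Y|Z) + H(R+φ|Y,Z) = H(R+φ|Z)`
  have a1 := CH_chain hp.nonneg (fun ω => R ω + φ ω) Y Z
  have a2 : CH p (fun ω => (R ω + φ ω, Y ω)) Z ≤ CH p (fun ω => R ω + φ ω) Z := by
    refine CH_mono_left hp.nonneg fun ω ω' b1 b2 h => ?_
    have h1 := (Prod.ext_iff.mp h).1
    have h2 := (Prod.ext_iff.mp h).2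
    dsimp only at h1 h2
    refine Prod.ext h1 ?_
    show cl (T ω) (R ω + φ ω) = cl (T ω') (R ω' + φ ω')
    rw [h1, hT ω ω' b1 b2 h2]
  -- conditioning on more
  have a3 : CH p R (fun ω => (Y ω, (X ω, (φ ω, Z ω)))) ≤ CH p (fun ω => R ω + φ ω)
      (fun ω => (Y ω, Z ω)) := by
    have b1 : CH p (fun ω => R ω + φ ω) (fun ω => (Y ω, (X ω, (φ ω, Z ω)))) ≤
        CH p (fun ω => R ω + φ ω) (fun ω => (Y ω, Z ω)) := by
      refine CH_mono_cond hp.nonneg fun ω ω' _ _ h => ?_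
      simp only [Prod.mk.injEq] at h
      exact Prod.ext h.1 h.2.2.2
    have b2 : CH p R (fun ω => (Y ω, (X ω, (φ ω, Z ω)))) ≤
        CH p (fun ω => R ω + φ ω) (fun ω => (Y ω, (X ω, (φ ω, Z ω)))) := by
      refine CH_mono_left hp.nonneg fun ω ω' _ _ h => ?_
      simp only [Prod.mk.injEq] at h
      obtain ⟨h1, h2, h3, h4, h5⟩ := h
      rw [h4] at h1
      exact add_right_cancel h1
    linarith
  have a4 := CH_le_add hp.nonneg R Y (fun ω => (X ω, (φ ω, Z ω)))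
  have a5 : CH p Y (fun ω => (X ω, (φ ω, Z ω))) ≤ n * Real.log 3 := by
    have b1 := CH_carry hp.nonneg hp.sum_one T R φ u (fun ω => (X ω, (φ ω, Z ω)))
      (fun ω j => rfl)
    refine le_trans (CH_mono_left hp.nonneg fun ω ω' c1 c2 h => ?_) b1
    simp only [Prod.mk.injEq] at h
    obtain ⟨h1, h2, h3, h4⟩ := h
    have hTT := hT ω ω' c1 c2 h4
    funext j
    have h5 : cl (T ω) (R ω + φ ω) j - cl (T ω) (R ω) j - cl (T ω) (φ ω) j =
      cl (T ω') (R ω' + φ ω') j - cl (T ω') (R ω') j - cl (T ω') (φ ω') j := congrFun h1 j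
    have h6 : cl (T ω) (R ω) j = cl (T ω') (R ω') j := congrFun h2 j
    have h7 : cl (T ω) (φ ω) j = cl (T ω') (φ ω') j := by rw [hTT, h3]
    show cl (T ω) (R ω + φ ω) j = cl (T ω') (R ω' + φ ω') j
    linarith
  have a6 := CH_chain hp.nonneg R X (fun ω => (φ ω, Z ω))
  have a7 : CH p R (fun ω => (φ ω, Z ω)) ≤ CH p (fun ω => (R ω, X ω)) (fun ω => (φ ω, Z ω)) := by
    refine CH_mono_left hp.nonneg fun ω ω' _ _ h => ?_
    exact (Prod.ext_iff.mp (Prod.ext_iff.mp h).1).1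
  have a8 : CH p X (fun ω => (φ ω, Z ω)) ≤ CH p X Z :=
    CH_mono_cond hp.nonneg fun ω ω' _ _ h => (Prod.ext_iff.mp h).2
  linarith

/-- Digits of the sum, lower bound. -/
theorem dig_low (hp : IsLaw p) (R φ : Ω → Fin n → ℝ) (Z : Ω → ζ)
    (A : Ω → Matrix (Fin n) (Fin n) ℝ) (hA : Det p Z A) (hd : ∀ ω, (A ω).det ≠ 0) (Q : ℕ)
    (hI : CH p R (fun ω => (φ ω, Z ω)) = CH p R Z) {a : ℝ} (ha : 0 ≤ a)
    (hφ : ∀ ω, 0 < p ω → ∀ i, |((A ω)⁻¹ *ᵥ φ ω) i| ≤ a) :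
    CH p (fun ω => cl (A ω) (R ω)) Z + CH p (fun ω => cl (sc Q (A ω)) (φ ω)) Z ≤
      CH p (fun ω => cl (sc Q (A ω)) (R ω + φ ω)) Z + n * Real.log 3 +
        n * Real.log (2 * (2 * a + 2) + 1) := by
  set T : Ω → Matrix (Fin n) (Fin n) ℝ := fun ω => sc Q (A ω) with hT
  have hTd : Det p Z T := fun ω ω' b1 b2 h => by
    show sc Q (A ω) = sc Q (A ω')
    rw [hA ω ω' b1 b2 h]
  set W : Ω → Fin n → ℤ := fun ω => cl (A ω) (R ω) with hW
  set P : Ω → Fin n → ℤ := fun ω => cl (T ω) (φ ω) with hP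
  set Y : Ω → Fin n → ℤ := fun ω => cl (T ω) (R ω + φ ω) with hY
  set u : Ω → Fin n → ℤ := fun ω j => cl (T ω) (R ω + φ ω) j - cl (T ω) (R ω) j - cl (T ω) (φ ω) j
    with hu
  -- `H(W|Z) + H(Y|W,Z) = H(Y,W|Z)`
  have a1 := CH_chain hp.nonneg Y W Z
  have a2 := CH_chain hp.nonneg W Y Z
  have a3 : CH p (fun ω => (Y ω, W ω)) Z = CH p (fun ω => (W ω, Y ω)) Z := by
    refine CH_congr hp.nonneg ?_ ?_ (fun _ _ _ _ h => h) (fun _ _ _ _ h => h) <;>
    · intro ω ω' _ _ h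
      simp only [Prod.mk.injEq] at h ⊢
      tauto
  -- `H(Y|R,Z) ≤ H(Y|W,Z)`
  have a4 : CH p Y (fun ω => (R ω, Z ω)) ≤ CH p Y (fun ω => (W ω, Z ω)) := by
    refine CH_mono_cond hp.nonneg fun ω ω' b1 b2 h => ?_
    have h1 := (Prod.ext_iff.mp h).1
    have h2 := (Prod.ext_iff.mp h).2
    dsimp only at h1 h2
    refine Prod.ext ?_ h2
    show cl (A ω) (R ω) = cl (A ω') (R ω')
    rw [h1, hA ω ω' b1 b2 h2]
  -- `H(P|R,Z) ≤ H(Y|R,Z) + n log 3`
  have a5 := CH_le_add hp.nonneg P Y (fun ω => (R ω, Z ω))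
  have a6 : CH p P (fun ω => (Y ω, (R ω, Z ω))) ≤ n * Real.log 3 := by
    have b1 := CH_carry hp.nonneg hp.sum_one T R φ u (fun ω => (Y ω, (R ω, Z ω)))
      (fun ω j => rfl)
    refine le_trans (CH_mono_left hp.nonneg fun ω ω' c1 c2 h => ?_) b1
    simp only [Prod.mk.injEq] at h
    obtain ⟨h1, h2, h3, h4⟩ := h
    have hTT := hTd ω ω' c1 c2 h4
    funext j
    have h5 : cl (T ω) (R ω + φ ω) j - cl (T ω) (R ω) j - cl (T ω) (φ ω) j =
      cl (T ω') (R ω' + φ ω') j - cl (T ω') (R ω') j - cl (T ω') (φ ω') j := congrFun h1 j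
    have h6 : cl (T ω) (R ω + φ ω) j = cl (T ω') (R ω' + φ ω') j := congrFun h2 j
    have h7 : cl (T ω) (R ω) j = cl (T ω') (R ω') j := by rw [hTT, h3]
    show cl (T ω) (φ ω) j = cl (T ω') (φ ω') j
    linarith
  have a7 : CH p P Z ≤ CH p P (fun ω => (R ω, Z ω)) := by
    have b1 := CH_chain hp.nonneg R φ Z
    have b2 := CH_chain hp.nonneg φ R Z
    have b3 : CH p (fun ω => (R ω, φ ω)) Z = CH p (fun ω => (φ ω, R ω)) Z := by
      refine CH_congr hp.nonneg ?_ ?_ (fun _ _ _ _ h => h) (fun _ _ _ _ h => h) <;>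
      · intro ω ω' _ _ h
        simp only [Prod.mk.injEq] at h ⊢
        tauto
    have b4 : CH p φ (fun ω => (R ω, Z ω)) = CH p φ Z := by linarith
    -- independence passes to functions of `φ`, `Z`
    have b5 := CH_chain hp.nonneg φ P Z
    have b6 := CH_chain hp.nonneg φ P (fun ω => (R ω, Z ω))
    have b7 : CH p (fun ω => (φ ω, P ω)) Z = CH p φ Z := by
      refine CH_congr hp.nonneg ?_ ?_ (fun _ _ _ _ h => h) (fun _ _ _ _ h => h)
      · intro ω ω' _ _ h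
        simp only [Prod.mk.injEq] at h
        exact h.1.1
      · intro ω ω' c1 c2 h
        simp only [Prod.mk.injEq] at h
        refine Prod.ext h.1 ?_
        show cl (T ω) (φ ω) = cl (T ω') (φ ω')
        rw [h.1, hTd ω ω' c1 c2 h.2]
    have b8 : CH p (fun ω => (φ ω, P ω)) (fun ω => (R ω, Z ω)) = CH p φ (fun ω => (R ω, Z ω)) := by
      refine CH_congr hp.nonneg ?_ ?_ (fun _ _ _ _ h => h) (fun _ _ _ _ h => h)
      · intro ω ω' _ _ h
        simp only [Prod.mk.injEq] at h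
        exact h.1.1
      · intro ω ω' c1 c2 h
        simp only [Prod.mk.injEq] at h
        refine Prod.ext h.1 ?_
        show cl (T ω) (φ ω) = cl (T ω') (φ ω')
        rw [h.1, hTd ω ω' c1 c2 h.2.2]
    have b9 : CH p φ (fun ω => (P ω, (R ω, Z ω))) ≤ CH p φ (fun ω => (P ω, Z ω)) := by
      refine CH_mono_cond hp.nonneg fun ω ω' _ _ h => ?_
      simp only [Prod.mk.injEq] at h
      exact Prod.ext h.1 h.2.2
    linarith
  -- `H(W|Y,Z)` is small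
  have a8 : CH p W (fun ω => (Y ω, Z ω)) ≤ n * Real.log (2 * (2 * a + 2) + 1) := by
    have key := CH_le_vec hp.nonneg hp.sum_one W (fun ω => (Y ω, Z ω)) (fun _ => 2 * a + 2) (by
      intro ω ω' b1 b2 h j
      simp only [Prod.mk.injEq] at h
      obtain ⟨h1, h2⟩ := h
      have hAA := hA ω ω' b1 b2 h2
      have h3 := congrFun h1 j
      simp only [hY, hT] at h3
      rw [cl_sc Q (hd ω), cl_sc Q (hd ω')] at h3
      have h4 := abs_sub_of_floor h3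
      rw [← mul_sub, abs_mul, abs_of_pos (by positivity : (0 : ℝ) < 2 ^ Q)] at h4
      have h5 : |((A ω)⁻¹ *ᵥ (R ω + φ ω)) j - ((A ω')⁻¹ *ᵥ (R ω' + φ ω')) j| ≤ 1 := by
        refine le_trans ?_ h4
        have h6 : (1 : ℝ) ≤ 2 ^ Q := one_le_pow₀ (by norm_num)
        nlinarith [abs_nonneg (((A ω)⁻¹ *ᵥ (R ω + φ ω)) j - ((A ω')⁻¹ *ᵥ (R ω' + φ ω')) j)]
      rw [Matrix.mulVec_add, Matrix.mulVec_add, Pi.add_apply, Pi.add_apply] at h5
      have h6 := hφ ω b1 j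
      have h7 := hφ ω' b2 j
      have h8 : |((A ω)⁻¹ *ᵥ R ω) j - ((A ω')⁻¹ *ᵥ R ω') j| ≤ 2 * a + 1 := by
        rw [abs_le] at h5 h6 h7 ⊢
        constructor <;> linarith
      have h9 := floor_sub_le h8
      show |((⌊((A ω)⁻¹ *ᵥ R ω) j⌋ - ⌊((A ω')⁻¹ *ᵥ R ω') j⌋ : ℤ) : ℝ)| ≤ 2 * a + 2
      linarith)
    rwa [Ex_const hp.sum_one] at key
  linarith

/-- **Absorption of a full signal.** The body `A` is full for `R` down to `2 ^ (-Q) A`. -/
theorem box_full (hp : IsLaw p) (R φ : Ω → Fin n → ℝ) (Z : Ω → ζ)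
    (A : Ω → Matrix (Fin n) (Fin n) ℝ) (hA : Det p Z A) (hd : ∀ ω, (A ω).det ≠ 0) (Q : ℕ)
    (hI : CH p R (fun ω => (φ ω, Z ω)) = CH p R Z) {D : ℝ}
    (hD : CH p (fun ω => R ω + φ ω) Z ≤ CH p R Z + D) {a : ℝ} (ha : 0 ≤ a)
    (hφ : ∀ ω, 0 < p ω → ∀ i, |((A ω)⁻¹ *ᵥ φ ω) i| ≤ a) :
    DF p (fun ω => sc Q (A ω)) A R Z ≤
      (n * (Q * Real.log 2) - CH p (fun ω => cl (sc Q (A ω)) (φ ω)) Z) + D +
        (2 * (n * Real.log 3) + n * Real.log (2 * (2 * a + 2) + 1)) := by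
  have hTd : Det p Z (fun ω => sc Q (A ω)) := fun ω ω' b1 b2 h => by
    show sc Q (A ω) = sc Q (A ω')
    rw [hA ω ω' b1 b2 h]
  have h1 := dig_up hp R φ Z _ hTd hI hD
  have h2 := dig_low hp R φ Z A hA hd Q hI ha hφ
  have h3 := CH_chain hp.nonneg (fun ω => cl (sc Q (A ω)) (R ω)) (fun ω => cl (A ω) (R ω)) Z
  have h4 : CH p (fun ω => cl (sc Q (A ω)) (R ω)) Z ≤
      CH p (fun ω => (cl (sc Q (A ω)) (R ω), cl (A ω) (R ω))) Z :=
    CH_mono_left hp.nonneg fun ω ω' _ _ h => (Prod.ext_iff.mp (Prod.ext_iff.mp h).1).1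
  have h5 : Ex p (fun ω => lv (A ω) - lv (sc Q (A ω))) = n * (Q * Real.log 2) := by
    have h6 : (fun ω => lv (A ω) - lv (sc Q (A ω))) = fun _ => n * (Q * Real.log 2) := by
      funext ω
      rw [lv_sc Q (hd ω)]
      ring
    rw [h6, Ex_const hp.sum_one]
  unfold DF
  rw [h5]
  linarith

end Absorb

end Pool.OCK
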